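import Pool.Agent.Helper54.SL.Defs

/-!
# SL-1: algebra of the root space of `Y^(q^2) - T Y^q + Y`
-/

set_option autoImplicit false
set_option linter.unusedVariables false
set_option linter.unusedSectionVars false

namespace Pool.Agent.Helper54.SL

section Roots
variable {p n : ℕ} [Fact p.Prime] {L : Type} [Field L] [CharP L p] {T : L}

private theorem add_q (a b : L) : (a + b) ^ (p ^ n) = a ^ (p ^ n) + b ^ (p ^ n) :=
  add_pow_char_pow a b p n

private theorem sub_q (a b : L) : (a - b) ^ (p ^ n) = a ^ (p ^ n) - b ^ (p ^ n) :=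
  sub_pow_char_pow a b n

private theorem pow_q2 (q : ℕ) (a : L) : a ^ (q ^ 2) = (a ^ q) ^ q := by
  rw [← pow_mul, sq]

theorem rt_add {a b : L} (ha : Rt (p ^ n) T a) (hb : Rt (p ^ n) T b) : Rt (p ^ n) T (a + b) := by
  unfold Rt at *
  rw [pow_q2] at *
  rw [add_q (p := p) (n := n), add_q (p := p) (n := n)]
  linear_combination ha + hb

theorem rt_sub {a b : L} (ha : Rt (p ^ n) T a) (hb : Rt (p ^ n) T b) : Rt (p ^ n) T (a - b) := by
  unfold Rt at *
  rw [pow_q2] at *
  rw [sub_q (p := p) (n := n), sub_q (p := p) (n := n)]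
  linear_combination ha - hb

theorem rt_smul {a c : L} (hc : c ^ (p ^ n) = c) (ha : Rt (p ^ n) T a) : Rt (p ^ n) T (c * a) := by
  unfold Rt at *
  rw [pow_q2] at *
  rw [mul_pow, mul_pow, hc, hc]
  linear_combination c * ha

theorem dd_fix {a b : L} (ha : Rt (p ^ n) T a) (hb : Rt (p ^ n) T b) :
    dd (p ^ n) a b ^ (p ^ n) = dd (p ^ n) a b := by
  unfold Rt at *
  rw [pow_q2] at ha hb
  unfold dd
  rw [sub_q (p := p) (n := n), mul_pow, mul_pow]
  linear_combination a ^ (p ^ n) * hb - b ^ (p ^ n) * ha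

theorem rt_decomp {y0 y1 y : L} (h0 : Rt (p ^ n) T y0) (h1 : Rt (p ^ n) T y1)
    (hd : dd (p ^ n) y0 y1 = 1) (hy : Rt (p ^ n) T y) :
    y = dd (p ^ n) y y1 * y0 + dd (p ^ n) y0 y * y1 := by
  unfold dd at *
  linear_combination -y * hd

/-- coordinates are unique -/
theorem coord_unique {y0 y1 a b a' b' : L} (hd : dd (p ^ n) y0 y1 = 1) (ha : a ^ (p ^ n) = a)
    (hb : b ^ (p ^ n) = b) (ha' : a' ^ (p ^ n) = a') (hb' : b' ^ (p ^ n) = b')
    (h : a * y0 + b * y1 = a' * y0 + b' * y1) : a = a' ∧ b = b' := by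
  have hq : a * y0 ^ (p ^ n) + b * y1 ^ (p ^ n) = a' * y0 ^ (p ^ n) + b' * y1 ^ (p ^ n) := by
    have := congrArg (fun t : L => t ^ (p ^ n)) h
    rw [add_q (p := p) (n := n), add_q (p := p) (n := n), mul_pow, mul_pow, mul_pow, mul_pow,
      ha, hb, ha', hb'] at this
    exact this
  unfold dd at hd
  constructor
  · linear_combination (-(a - a')) * hd + y1 ^ (p ^ n) * h - y1 * hq
  · linear_combination (-(b - b')) * hd - y0 ^ (p ^ n) * h + y0 * hq

end Roots

end Pool.Agent.Helper54.SL
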